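import Mathlib
import Pool.Agent.Helper968.SC.Main

set_option autoImplicit false

namespace Pool.Agent.Results.MP_947c47_gt.SchaefferSausage

/-- Schäffer's question: a convex body of three-space whose boundary meets each of its images under
isometries in a connected set (the empty set allowed) is the closed `r`-neighbourhood of a segment,
`r > 0`, the segment possibly reduced to a point. -/
theorem result (K : Set (EuclideanSpace ℝ (Fin 3))) (hconv : Convex ℝ K) (hcomp : IsCompact K)
    (hint : (interior K).Nonempty)
    (hP : ∀ f : EuclideanSpace ℝ (Fin 3) → EuclideanSpace ℝ (Fin 3), Isometry f →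
      IsPreconnected (frontier K ∩ f '' frontier K)) :
    ∃ a b : EuclideanSpace ℝ (Fin 3), ∃ r : ℝ, 0 < r ∧
      K = Metric.cthickening r (segment ℝ a b) := by
  obtain ⟨a, b, r, hr, h⟩ := Pool.Agent.Helper968.SC.sausage (K := K) ⟨hconv, hcomp, hint⟩
    (fun f => by
      rcases Set.eq_empty_or_nonempty (frontier K ∩ f '' (frontier K)) with h | h
      · exact Or.inl h
      · exact Or.inr ⟨h, hP f f.isometry⟩)
  refine ⟨a, b, r, hr, ?_⟩
  rw [h]
  ext x
  simp only [Set.mem_setOf_eq]
  have hne : (segment ℝ a b).Nonempty := ⟨a, left_mem_segment ℝ a b⟩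
  rw [Metric.mem_cthickening_iff, Metric.infDist,
    ENNReal.le_ofReal_iff_toReal_le (Metric.infEDist_ne_top hne) hr.le]

end Pool.Agent.Results.MP_947c47_gt.SchaefferSausage
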